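import Pool.Agent.V2450.Deligne.Main

/-!
# Deligne's conjecture for motives which become abelian over a supersolvable extension of `ℚ`

The conventions are those of MP_100fe7_nt: `M` is pure, without classes of type `(w/2, w/2)`, the integer
`m` is critical for `M`, and the period is `(2πi)^{m n^ε} c^ε(M)`.

Let `E` be the field of coefficients, `k` an algebraic closure of `E`, `B = E ⊗ ℂ` and
`A = k ⊗_E B = k ⊗ ℂ`. Let `G = T(k)` be the group of the `k`-points of the Taniyama group `T`: the
motives over `ℚ` (for absolute Hodge cycles) with coefficients in `k` which are potentially of CM
type (they are generated by the abelian varieties which have complex multiplication over the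
algebraic closure and the Artin motives) are the algebraic representations `ρ` of `G` on finite
dimensional `k`-spaces `V` (Deligne, Langlands). For a number field `K` the inverse image of
`Gal(ℚ̄/K)` in `G` is a subgroup `G_K` of index `[K : ℚ]`; the algebraic characters of `G_K` are the
algebraic Hecke characters `χ` of `K`, and the `L`-function of `Ind χ` is the Hecke `L`-function of
`χ`. Every submotive, quotient and direct summand of a critical motive is critical.

* `Sides`: `D.crit V ρ` says that `(V, ρ)` is such a motive `M` with coefficients in `k` and that the
  integer which is considered is critical for `M`; `D.L V ρ ∈ A` is the value of the `L`-function,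
  `D.c V ρ ∈ A` is (a representative of) the period. Here `D.L V ρ = L(m, M)` and
  `D.c V ρ = (2πi)^{m n^ε} c^ε(M)`.
* `Conj D V ρ`: Deligne's conjecture for `M`, that is `D.L V ρ = e * D.c V ρ` with `e ∈ k`.
* `IsKnown D`: the facts which are known: the motives are semisimple; `L` is multiplicative in direct
  sums, and `c` is, up to factors in `kˣ`; isomorphic motives have the same `L` and `c` (up to `kˣ`);
  `c` is invertible; and (`hecke`) Deligne's conjecture is true for the motives `Ind_{G_K}^G χ`, that
  is for the critical values of the `L`-functions of algebraic Hecke characters `χ` of number fields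
  `K` (Siegel and Klingen if `K` is totally real, Blasius if `K` is a CM field, in general Harder and
  Schappacher, Kings and Sprang, Kufner).
* `Ab ρ N`: the subgroup `N` acts through an abelian quotient. For `N = G_L` this says that `M` is over
  `L` a direct sum of motives of rank one over `k` (of algebraic Hecke characters of `L`).
* `Supersolvable Q`: the group `Q` has a chain of normal subgroups with cyclic quotients.
* `IsInduced N ρ`: `ρ` is induced from a character of a subgroup `H ⊇ N` of finite index: there is a
  basis indexed by `G ⧸ H` whose lines are permuted by `G` in the same way as the elements of `G ⧸ H`.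
* `SumInd N V ρ`: `ρ` is a direct sum of representations `σ` with `IsInduced N σ`.
* `Brauer D N V ρ`: `ρ ⊕ ρ' ≅ σ` where `σ` (which is critical) and `ρ'` are direct sums of inductions.
  By Brauer's theorem this is true if `Ab ρ N` and if `N` is normal and of finite index.
-/

set_option autoImplicit false

namespace Pool.Agent.Results.MP_100fe7_nt.AbelianOverSupersolvable

open Pool.Agent.V2450.Deligne

open scoped TensorProduct in
/-- (1) Let `M` be a critical motive which is a direct sum of motives of rank one over a Galois
extension `L` of `ℚ` with a supersolvable Galois group `G ⧸ N`. Then `M` is a direct sum of motives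
induced from algebraic Hecke characters of subfields `K` of `L`, and Deligne's conjecture is true for
`M`, also at the centre of the functional equation. (2) For an arbitrary `L`, Deligne's conjecture is
true for `M` if the `L`-values of the critical motives which are induced from algebraic Hecke
characters of subfields of `L` are not zero (this is known outside of the centre of the functional
equation), and then the value for `M` is not zero, too. (3) The conjecture for `M ⊗_E k` implies the
conjecture for `M`. -/
theorem result :
    (∀ (k G A : Type) [Field k] [IsAlgClosed k] [Group G] [CommRing A] [Algebra k A]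
      (D : Sides k G A), IsKnown D →
      (∀ (V : Type) [AddCommGroup V] [Module k V] (ρ : Representation k G V), D.crit V ρ →
        Nontrivial V → ∀ (N : Subgroup G) [N.Normal], Supersolvable (G ⧸ N) → Ab ρ N →
        SumInd N V ρ ∧ Conj D V ρ) ∧
      (∀ N : Subgroup G,
        (∀ (V : Type) [AddCommGroup V] [Module k V] (ρ : Representation k G V), D.crit V ρ →
          IsInduced N ρ → D.L V ρ ≠ 0) →
        ∀ (V : Type) [AddCommGroup V] [Module k V] (ρ : Representation k G V), Brauer D N V ρ →
          ∃ e : k, e ≠ 0 ∧ D.L V ρ = algebraMap k A e * D.c V ρ)) ∧
    (∀ (E k B : Type) [Field E] [Field k] [Algebra E k] [CommRing B] [Algebra E B] (x y : B),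
      (∃ e : k, (1 : k) ⊗ₜ[E] x = e ⊗ₜ[E] y) → ∃ e' : E, x = e' • y) := by
  refine ⟨?_, ?_⟩
  · intro k G A _ _ _ _ _ D hD
    refine ⟨?_, ?_⟩
    · intro V _ _ ρ hc hV N _ hQ hab
      have h := sumInd hD N hQ _ V ρ hc hV hab rfl
      exact ⟨h, conj_of_sumInd hD h hc⟩
    · intro N hne V _ _ ρ hB
      exact conj_of_brauer hD hne hB
  · rintro E k B _ _ _ _ _ x y ⟨e, h⟩
    exact descent E k B x y e h

end Pool.Agent.Results.MP_100fe7_nt.AbelianOverSupersolvable
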