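import Pool.Agent.V11333.Cone5
import Pool.Agent.V11333.ArtinMat

/-!
# Critical values of motivic L-functions and one-sided bounds

Let `M` be a motive of weight `w` over a number field `K` (in the problem `K = ℚ`) with coefficients in a
number field `E` (in the main case `E` is totally real), `S` a set of primes of `K`, and for `v ∈ S` let `Φ_v` be a
matrix over `E` with the characteristic polynomial of the Frobenius at `v`. For the embeddings `τ : E → ℝ` the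
components of `L(s, M)` (outside `S`) are

`L_τ(s) = ∏_{v ∈ S} det(1 - q_v^{-s} τ(Φ_v))⁻¹`.

Let `m` be a real number to the right of the centre or the centre itself, `m ≥ (w + 1)/2` (every critical
integer is of this kind, for `M` or for the dual motive, by the functional equation). For `κ > 1` let

`S_{τ,κ}(Y) = ∑_{v, k ≥ 1} w_κ(k log q_v / log Y) τ(tr Φ_v^k) / (k q_v^{km})`, `q_v^k ≤ exp ((log Y)^{κ'})`,
`w_κ(u) = (1/2πi) ∫ exp(z - u z^{1/κ}) dz/z`,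

(`κ' > κ` is irrelevant). For every `τ`, all `A > 0`, natural `r` and `κ₀ ≥ 1` the following are EQUIVALENT:

* `L_τ(s)` has a holomorphic continuation WITHOUT ZEROS to the union of the half plane `Re s > m + 1/2` and
  the sector `|arg (s - m)| < π/(2κ₀)` (for `κ₀ = 1`: the half plane `Re s > m`), and `L_τ(s) ∼ A (s - m)^r` for
  `s → m` in the smaller sectors;
* `L_τ(s)` has a continuation along the REAL axis to all `s > m` (zeros allowed) with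
  `L_τ(s) ∼ A (s - m)^r` for real `s → m`, and `S_{τ,κ}(Y) + r log log Y` is bounded BELOW for all `κ > κ₀`;
* the same for `1/L_τ(s)` (poles of `L_τ` allowed), and `S_{τ,κ}(Y) + r log log Y` is bounded ABOVE;
* `S_{τ,κ}(Y) + r log log Y` converges to `log A - r γ/κ`, for all `κ > κ₀`.

Consequently, for arbitrary complex numbers `c_τ` (in the conjecture `c_τ` is `(2πi)^{m n^ε} c^ε(M)`): there is
`e ∈ E` such that for all `τ` the number `τ(e) c_τ` is real and positive, `L_τ(s)` has the zero-free continuation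
and `L_τ(s) → τ(e) c_τ` for `s → m` in the sectors, if and only if there is `e ∈ E` such that for all `τ` one has
`τ(e) c_τ > 0`, `L_τ(s)` continues along the real axis with `L_τ(s) → τ(e) c_τ` for real `s → m`, and the sums
`S_{τ,κ}(Y)` are bounded below; and if and only if there is `e ∈ E` with `exp S_{τ,κ}(Y) → τ(e) c_τ > 0` for
all `τ` and `κ > κ₀`.
-/

set_option autoImplicit false

namespace Pool.Agent.Results.MP_100fe7_nt.OneSidedCriticalValues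

open Filter Topology Set NumberField IsDedekindDomain

variable {K E : Type} [Field K] [NumberField K] [Field E] [NumberField E] {d : ℕ}
variable {S : Set (HeightOneSpectrum (𝓞 K))}

/-- The norm `q_v`. -/
noncomputable def nrm (v : HeightOneSpectrum (𝓞 K)) : ℕ := Ideal.absNorm v.asIdeal

/-- The matrix `τ(Φ)`, as a complex matrix. -/
noncomputable def cx (τ : E →+* ℝ) (Φ : Matrix (Fin d) (Fin d) E) : Matrix (Fin d) (Fin d) ℂ :=
  (Complex.ofRealHom.comp τ).mapMatrix Φ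

/-- For all `τ : E → ℝ` the eigenvalues of `τ(Φ_v)` have absolute value at most `q_v^{w/2}`. -/
def WeightAtMost (w : ℤ) (Φ : S → Matrix (Fin d) (Fin d) E) : Prop :=
  ∀ (τ : E →+* ℝ) (v : S), ∀ z ∈ (cx τ (Φ v)).charpoly.roots, ‖z‖ ≤ (nrm v.1 : ℝ) ^ ((w : ℝ) / 2)

/-- The Euler factor `det(1 - q_v^{-s} τ(Φ_v))⁻¹`. -/
noncomputable def factor (τ : E →+* ℝ) (Φ : S → Matrix (Fin d) (Fin d) E) (v : S) (s : ℂ) : ℂ :=
  ((1 - (nrm v.1 : ℂ) ^ (-s) • cx τ (Φ v)).det)⁻¹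

/-- The open sector `|arg (s - m)| < π/(2κ)` with vertex `m`. -/
def Sector (m κ : ℝ) : Set ℂ := {s | s ≠ m ∧ |(s - m).arg| < Real.pi / (2 * κ)}

/-- `L_τ` has a holomorphic continuation `G` without zeros to the union of the sector
`|arg (s - m)| < π/(2κ₀)` and the half plane `Re s > m + 1/2`, and `G(s)/(s - m)^r → A` for `s → m` in the
sectors `|arg (s - m)| < π/(2κ)`, `κ > κ₀`. -/
def Continues (m : ℝ) (τ : E →+* ℝ) (Φ : S → Matrix (Fin d) (Fin d) E) (κ₀ : ℝ) (r : ℕ) (A : ℝ) :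
    Prop :=
  ∃ G : ℂ → ℂ, (∀ s : ℂ, s ∈ Sector m κ₀ ∨ m + 1 / 2 < s.re → DifferentiableAt ℂ G s ∧ G s ≠ 0) ∧
    (∀ s : ℂ, m + 1 / 2 < s.re → HasProd (fun v : S => factor τ Φ v s) (G s)) ∧
    ∀ κ : ℝ, κ₀ < κ → Tendsto (fun s : ℂ => G s / (s - m) ^ r) (𝓝[Sector m κ] (m : ℂ)) (𝓝 (A : ℂ))

/-- `L_τ` has a continuation `F` which is analytic at all real `x > m`, with `F(x)/(x - m)^r → A` for real
`x → m`, `x > m`. -/
def RealContinues (m : ℝ) (τ : E →+* ℝ) (Φ : S → Matrix (Fin d) (Fin d) E) (r : ℕ) (A : ℝ) : Prop :=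
  ∃ F : ℂ → ℂ, (∀ x : ℝ, m < x → AnalyticAt ℂ F x) ∧
    (∀ x : ℝ, m + 1 / 2 < x → HasProd (fun v : S => factor τ Φ v x) (F x)) ∧
    Tendsto (fun x : ℝ => F x / ((x - m : ℝ) : ℂ) ^ r) (𝓝[>] m) (𝓝 (A : ℂ))

/-- `1/L_τ` has a continuation `F` which is analytic at all real `x > m`, with `F(x) (x - m)^r → 1/A` for
real `x → m`, `x > m`. -/
def RealContinuesInv (m : ℝ) (τ : E →+* ℝ) (Φ : S → Matrix (Fin d) (Fin d) E) (r : ℕ) (A : ℝ) :
    Prop :=
  ∃ F : ℂ → ℂ, (∀ x : ℝ, m < x → AnalyticAt ℂ F x) ∧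
    (∀ x : ℝ, m + 1 / 2 < x → HasProd (fun v : S => factor τ Φ v x) (F x)⁻¹) ∧
    Tendsto (fun x : ℝ => F x * ((x - m : ℝ) : ℂ) ^ r) (𝓝[>] m) (𝓝 ((A : ℂ)⁻¹))

/-- The weight `w_κ(u) = (1/2πi) ∫_{Re z = 1} exp(z - u z^{1/κ}) dz/z`. -/
noncomputable def weight (κ u : ℝ) : ℝ :=
  (2 * Real.pi)⁻¹ * ∫ t : ℝ, (Complex.exp ((1 + t * Complex.I) -
    u * (1 + t * Complex.I) ^ ((κ⁻¹ : ℝ) : ℂ)) / (1 + t * Complex.I)).re

/-- `S_{τ,κ}(Y)`: the sum of `w_κ(k log q_v / log Y) τ(tr Φ_v^k) / (k q_v^{km})` over the primes `v ∈ S` and the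
`k ≥ 1` (here `k = p.2 + 1`) with `q_v^k ≤ exp ((log Y)^{κ'})`. -/
noncomputable def mean (m : ℝ) (τ : E →+* ℝ) (Φ : S → Matrix (Fin d) (Fin d) E) (κ κ' Y : ℝ) : ℝ :=
  ∑ᶠ (p : S × ℕ) (_ : (nrm p.1.1 : ℝ) ^ (p.2 + 1) ≤ Real.exp (Real.log Y ^ κ')),
    weight κ (((p.2 : ℝ) + 1) * Real.log (nrm p.1.1) / Real.log Y) *
      (τ (Φ p.1 ^ (p.2 + 1)).trace / (((p.2 : ℝ) + 1) * ((nrm p.1.1 : ℝ) ^ m) ^ (p.2 + 1)))

/-- `S_{τ,κ}(Y) + r log log Y` is bounded below for `Y → ∞`, for all `κ' > κ > κ₀`. -/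
def Lower (m : ℝ) (τ : E →+* ℝ) (Φ : S → Matrix (Fin d) (Fin d) E) (κ₀ : ℝ) (r : ℕ) : Prop :=
  ∀ κ κ' : ℝ, κ₀ < κ → κ < κ' → ∃ C : ℝ, ∀ᶠ Y : ℝ in atTop,
    -C ≤ mean m τ Φ κ κ' Y + r * Real.log (Real.log Y)

/-- `S_{τ,κ}(Y) + r log log Y` is bounded above for `Y → ∞`, for all `κ' > κ > κ₀`. -/
def Upper (m : ℝ) (τ : E →+* ℝ) (Φ : S → Matrix (Fin d) (Fin d) E) (κ₀ : ℝ) (r : ℕ) : Prop :=
  ∀ κ κ' : ℝ, κ₀ < κ → κ < κ' → ∃ C : ℝ, ∀ᶠ Y : ℝ in atTop,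
    mean m τ Φ κ κ' Y + r * Real.log (Real.log Y) ≤ C

/-- `S_{τ,κ}(Y) + r log log Y → log A - r γ/κ` for `Y → ∞`, for all `κ' > κ > κ₀`. -/
def Limits (m : ℝ) (τ : E →+* ℝ) (Φ : S → Matrix (Fin d) (Fin d) E) (κ₀ : ℝ) (r : ℕ) (A : ℝ) :
    Prop :=
  ∀ κ κ' : ℝ, κ₀ < κ → κ < κ' →
    Tendsto (fun Y : ℝ => mean m τ Φ κ κ' Y + r * Real.log (Real.log Y)) atTop
      (𝓝 (Real.log A - r * Real.eulerMascheroniConstant / κ))

/-- There is `e ∈ E` such that for all `τ : E → ℝ` the number `A = τ(e) c_τ` is real and positive and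
`P τ A` holds. -/
def RationalMultiple (c : (E →+* ℝ) → ℂ) (P : (E →+* ℝ) → ℝ → Prop) : Prop :=
  ∃ e : E, ∀ τ : E →+* ℝ, ∃ A : ℝ, 0 < A ∧ (A : ℂ) = (τ e : ℂ) * c τ ∧ P τ A

open Pool.Agent.V11333
open Pool.Agent.H921R2.TatePole (nm)

/-- the eigenvalues -/
noncomputable def ev (τ : E →+* ℝ) (Φ : S → Matrix (Fin d) (Fin d) E) (v : S) (j : Fin d) : ℂ :=
  AM.enum (cx τ (Φ v)) j

theorem cx_trace (τ : E →+* ℝ) (A : Matrix (Fin d) (Fin d) E) :
    (cx τ A).trace = ((τ A.trace : ℝ) : ℂ) := by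
  unfold cx Matrix.trace
  rw [map_sum, Complex.ofReal_sum]
  rfl

theorem ev_sum (τ : E →+* ℝ) (Φ : S → Matrix (Fin d) (Fin d) E) (v : S) (k : ℕ) :
    ∑ j, ev τ Φ v j ^ k = ((τ (Φ v ^ k).trace : ℝ) : ℂ) := by
  rw [← cx_trace]
  unfold ev
  rw [← AM.trace_pow]
  unfold cx
  rw [map_pow]

theorem pure {w : ℤ} {Φ : S → Matrix (Fin d) (Fin d) E} (h : WeightAtMost w Φ) {m : ℝ}
    (hm : ((w : ℝ) + 1) / 2 ≤ m) (τ : E →+* ℝ) : PR.Pure (m - 1 / 2) (ev τ Φ) := by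
  refine ⟨fun v j => (h τ v _ (AM.enum_mem _ j)).trans ?_, fun v k => ?_⟩
  · have h2 := PR.nrm_two v.1
    exact Real.rpow_le_rpow_of_exponent_le (by linarith : (1 : ℝ) ≤ nm v.1) (by linarith)
  · rw [ev_sum, Complex.ofReal_im]

theorem factor_eq (τ : E →+* ℝ) (Φ : S → Matrix (Fin d) (Fin d) E) (v : S) (s : ℂ) :
    PR.factor (ev τ Φ) v s = factor τ Φ v s := by
  have h0 : (nrm v.1 : ℂ) ≠ 0 := by
    have h1 : 2 ≤ nrm v.1 := Pool.Agent.H921R2.TatePole.two_le_nm v.1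
    have h2 : nrm v.1 ≠ 0 := by omega
    exact_mod_cast h2
  unfold PR.factor factor
  rw [AM.det_eq _ (by
    rw [Complex.cpow_def_of_ne_zero h0]
    exact Complex.exp_ne_zero _), Finset.prod_inv_distrib]
  rfl

theorem mean_eq (m : ℝ) (τ : E →+* ℝ) (Φ : S → Matrix (Fin d) (Fin d) E) (κ κ' Y : ℝ) :
    CP.mean m (ev τ Φ) κ κ' Y = mean m τ Φ κ κ' Y := by
  unfold CP.mean mean
  refine finsum_congr fun p => finsum_congr fun _ => ?_
  rw [ev_sum, Complex.ofReal_re]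
  rfl

/-- the main step -/
theorem law {w : ℤ} {Φ : S → Matrix (Fin d) (Fin d) E} (h : WeightAtMost w Φ) {m : ℝ}
    (hm : ((w : ℝ) + 1) / 2 ≤ m) (τ : E →+* ℝ) {κ₀ : ℝ} (hκ₀ : 1 ≤ κ₀) (r : ℕ) {A : ℝ} (hA : 0 < A) :
    (Limits m τ Φ κ₀ r A ↔ Continues m τ Φ κ₀ r A) ∧
    (Limits m τ Φ κ₀ r A ↔ RealContinues m τ Φ r A ∧ Lower m τ Φ κ₀ r) ∧
    (Limits m τ Φ κ₀ r A ↔ RealContinuesInv m τ Φ r A ∧ Upper m τ Φ κ₀ r) := by
  have h1 := CP.main (pure h hm τ) (c := m) (σ := m + 1 / 2) (by ring) (by ring) hκ₀ r hA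
  unfold CP.Limits CP.Continues CP.RealContinues CP.RealContinuesInv CP.Lower CP.Upper at h1
  simp only [mean_eq, factor_eq] at h1
  exact h1

/-- **Theorem.** Let `K`, `E` be number fields, `S` a set of primes of `K`, `Φ_v ∈ M_d(E)` (`v ∈ S`) with
eigenvalues of absolute value at most `q_v^{w/2}` under all `τ : E → ℝ`, `m ≥ (w + 1)/2` real and `κ₀ ≥ 1`.

I. For all `τ`, natural `r` and `A > 0` the following are equivalent: (1) `L_τ(s)` has a holomorphic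
continuation without zeros to the union of `Re s > m + 1/2` and `|arg (s - m)| < π/(2κ₀)`, with
`L_τ(s)/(s - m)^r → A` for `s → m` in the sectors `|arg (s - m)| < π/(2κ)`, `κ > κ₀`; (2) `L_τ(s)` is analytic along
the real axis to the right of `m`, `L_τ(x)/(x - m)^r → A` for real `x → m`, and `S_{τ,κ}(Y) + r log log Y` is
bounded below for all `κ' > κ > κ₀`; (3) `1/L_τ(s)` is analytic along the real axis to the right of `m`,
`L_τ(x)⁻¹ (x - m)^r → 1/A` for real `x → m`, and `S_{τ,κ}(Y) + r log log Y` is bounded above for all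
`κ' > κ > κ₀`; (4) `S_{τ,κ}(Y) + r log log Y → log A - r γ/κ` for all `κ' > κ > κ₀`.

II. Let `c_τ` be complex numbers. The following are equivalent: there is `e ∈ E` such that for all `τ` the
number `A = τ(e) c_τ` is real and positive and (1) holds with `r = 0`; there is such an `e` with (2); there is
such an `e` with (3); there is such an `e` with (4), that is, `exp S_{τ,κ}(Y) → τ(e) c_τ > 0`.

For `κ₀ = 1` the sector is the half plane `Re s > m`. -/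
theorem result (w : ℤ) (Φ : S → Matrix (Fin d) (Fin d) E) (h : WeightAtMost w Φ) (m : ℝ)
    (hm : ((w : ℝ) + 1) / 2 ≤ m) (κ₀ : ℝ) (hκ₀ : 1 ≤ κ₀) :
    (∀ (τ : E →+* ℝ) (r : ℕ) (A : ℝ), 0 < A →
      (Continues m τ Φ κ₀ r A ↔ RealContinues m τ Φ r A ∧ Lower m τ Φ κ₀ r) ∧
      (Continues m τ Φ κ₀ r A ↔ RealContinuesInv m τ Φ r A ∧ Upper m τ Φ κ₀ r) ∧
      (Continues m τ Φ κ₀ r A ↔ Limits m τ Φ κ₀ r A)) ∧
    (∀ c : (E →+* ℝ) → ℂ,
      (RationalMultiple c (fun τ A => Continues m τ Φ κ₀ 0 A) ↔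
        RationalMultiple c fun τ A => RealContinues m τ Φ 0 A ∧ Lower m τ Φ κ₀ 0) ∧
      (RationalMultiple c (fun τ A => Continues m τ Φ κ₀ 0 A) ↔
        RationalMultiple c fun τ A => RealContinuesInv m τ Φ 0 A ∧ Upper m τ Φ κ₀ 0) ∧
      (RationalMultiple c (fun τ A => Continues m τ Φ κ₀ 0 A) ↔
        RationalMultiple c fun τ A => Limits m τ Φ κ₀ 0 A)) ∧
    Sector m 1 = {s : ℂ | m < s.re} := by
  have h1 : ∀ (τ : E →+* ℝ) (r : ℕ) (A : ℝ), 0 < A →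
      (Continues m τ Φ κ₀ r A ↔ RealContinues m τ Φ r A ∧ Lower m τ Φ κ₀ r) ∧
      (Continues m τ Φ κ₀ r A ↔ RealContinuesInv m τ Φ r A ∧ Upper m τ Φ κ₀ r) ∧
      (Continues m τ Φ κ₀ r A ↔ Limits m τ Φ κ₀ r A) := by
    intro τ r A hA
    obtain ⟨k1, k2, k3⟩ := law h hm τ hκ₀ r hA
    exact ⟨k1.symm.trans k2, k1.symm.trans k3, k1.symm⟩
  have hc : ∀ (c : (E →+* ℝ) → ℂ) (P Q : (E →+* ℝ) → ℝ → Prop),
      (∀ τ A, 0 < A → (P τ A ↔ Q τ A)) → (RationalMultiple c P ↔ RationalMultiple c Q) := by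
    intro c P Q hPQ
    unfold RationalMultiple
    refine exists_congr fun e => forall_congr' fun τ => exists_congr fun A => ?_
    refine and_congr_right fun hA => and_congr_right fun _ => hPQ τ A hA
  refine ⟨h1, fun c => ⟨hc c _ _ fun τ A hA => (h1 τ 0 A hA).1,
    hc c _ _ fun τ A hA => (h1 τ 0 A hA).2.1, hc c _ _ fun τ A hA => (h1 τ 0 A hA).2.2⟩, ?_⟩
  ext s
  have h4 := CP.sector_shift m 1 s
  have h5 : s ∈ Sector m 1 ↔ s - m ∈ Pool.Agent.TH942.SL.Sect 1 := h4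
  rw [h5, Pool.Agent.TH942.ES.sect_one]
  simp only [Set.mem_ofPred_eq, Complex.sub_re, Complex.ofReal_re, sub_pos]

end Pool.Agent.Results.MP_100fe7_nt.OneSidedCriticalValues
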