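import Pool.Agent.V2450.Deligne.ModSuper

/-!
# Deligne's conjecture for the twists of modular forms with Artin motives of totally real fields
with supersolvable groups

The conventions are those of MP_100fe7_nt: motives over `ℚ` with coefficients in `E`, the value
`L(m, M)` at a critical integer `m` and the period `(2πi)^{m n^ε} c^ε(M)`.

Let `f` be a newform of weight `κ ≥ 2` with coefficients in `E`, `M` its motive of weight `κ - 1`, `k` an
algebraic closure of `E`, `B = E ⊗ ℂ` and `A = k ⊗_E B = k ⊗ ℂ`. Let `R` be the union of all totally
real number fields and `G = Gal(R/ℚ)`. The index `i ∈ ι` is a pair `(m, ε)`, `m` a critical integer of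
`M` and `ε` a Dirichlet character with `ε² = 1` such that `(-1)^m ε(-1)` is a fixed sign.

* `Sides`: `(D i).crit V ρ` says that `(V, ρ)` is a representation of `G` over `k` with an open kernel
  which over some totally real number field with a supersolvable Galois group over `ℚ` is a direct sum
  of characters; `(D i).L V ρ = L(m, M ⊗ ε ⊗ ρ)` and `(D i).c V ρ` is the
  period `(2πi)^{m n} c^±(M ⊗ ε ⊗ ρ)`.
* `Conj (D i) V ρ`: Deligne's conjecture, that is `(D i).L V ρ = e * (D i).c V ρ` with `e ∈ k`.
* `Basic`: representations are semisimple; `L` is multiplicative in direct sums, and `c` is, up to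
  factors in `kˣ`; `c` is invertible.
* `IsModular`: `basic`; `dirichlet`: Deligne's conjecture is true for the twists with Dirichlet
  characters (Shimura); `shimura`: for every totally real number field `K`, the field of the subgroup
  `H` of `G`, there is a number `u` (the quotient of the period of Shimura of the base change `f_K` by
  a power of the period of `f`) such that for all `i` and all `ρ = Ind χ`, `χ` a character of `K` of
  finite order, `L` is an element of `k` times `u` times `c` (Shimura's theorem for Hilbert modular
  forms and Deligne's formula for the period of `M ⊗ ρ`).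
* `IndFrom H ρ`: `ρ` is induced from a character of `H`.
* `SomeValue D N`, `N = G_L`: for all fields `K ⊆ L`, `K ≠ ℚ`, there are `i` and a reducible `ρ` with
  `IndFrom G_K ρ`, which is over `L` a direct sum of characters, and with a value which is not zero. If
  `κ ≥ 3` this is true for all `L` (take `ρ = Ind 1` and `m = κ - 1`; Jacquet and Shalika for `κ = 3`), if
  `κ = 2` this is true if `L` is abelian over `ℚ` (take `ρ = Ind (ψ|K)`, where `ψ` is an even Dirichlet
  character of prime power conductor; Rohrlich).
* `Supersolvable Q`: the group `Q` has a chain of normal subgroups with cyclic quotients.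
* `Ab ρ N`: the subgroup `N` acts through an abelian quotient.
* `SumInd N V ρ`: `ρ` is a direct sum of representations which are induced from characters of
  subgroups of finite index which contain `N`.
-/

set_option autoImplicit false

namespace Pool.Agent.Results.MP_100fe7_nt.SupersolvableModularTwists

open Pool.Agent.V2450.Deligne

open scoped TensorProduct in
/-- (1) Let `L` be a totally real number field, Galois over `ℚ` with a supersolvable group `G ⧸ N`, and
let `ρ` be a representation of `G` which is a direct sum of characters over `L`. Then `ρ` is a direct
sum of representations which are induced from characters of subfields of `L`, and Deligne's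
conjecture is true for `M ⊗ ε ⊗ ρ` at all critical integers `m`, also at the centre of the functional
equation. (2) The conjecture over `k` implies the conjecture over `E`. -/
theorem result :
    (∀ (k G A : Type) [Field k] [IsAlgClosed k] [Group G] [CommRing A] [Algebra k A] (ι : Type)
      (D : ι → Sides k G A), IsModular D →
      ∀ (N : Subgroup G) [N.Normal], Supersolvable (G ⧸ N) → SomeValue D N →
      ∀ (i : ι) (V : Type) [AddCommGroup V] [Module k V] (ρ : Representation k G V),
      (D i).crit V ρ → Nontrivial V → Ab ρ N → SumInd N V ρ ∧ Conj (D i) V ρ) ∧
    (∀ (E k B : Type) [Field E] [Field k] [Algebra E k] [CommRing B] [Algebra E B] (x y : B),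
      (∃ e : k, (1 : k) ⊗ₜ[E] x = e ⊗ₜ[E] y) → ∃ e' : E, x = e' • y) := by
  refine ⟨?_, ?_⟩
  · intro k G A _ _ _ _ _ ι D hD N _ hQ hne i V _ _ ρ hc hV hab
    exact conj_modular_super hD N hQ hne i V ρ hc hV hab
  · rintro E k B _ _ _ _ _ x y ⟨e, h⟩
    exact descent E k B x y e h

end Pool.Agent.Results.MP_100fe7_nt.SupersolvableModularTwists
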