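import Pool.Agent.V11288.LZ.Fin

/-!
# Deligne's conjecture: the critical values as limits of explicit sums over primes

Let `M` be a motive over `ℚ` with coefficients in a number field `E`, of rank `d` and weight `w`.  For every
prime `p` choose a matrix `F_p ∈ M_d(E)` with `det(1 - X F_p) = det(1 - X Frob_p | M_λ^{I_p}) ∈ E[X]`
(geometric Frobenius; at the bad primes filled up with zeros).  Its eigenvalues under every embedding
`τ : E → ℂ` have absolute value at most `p^{w/2}` (Deligne), and this is all that is used (`WeightAtMost`).  The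
components `L_τ(s)`, `τ ∈ Hom(E, ℂ)`, of the `E ⊗ ℂ`-valued function `L(s, M)` are the Euler products of
`det(1 - p^{-s} τ(F_p))⁻¹` for `Re s > w/2 + 1`, and we assume that they are meromorphic at the points of the
real interval `[m, w/2 + 1]` (`IsLFunction`; part of the assumptions of the problem).  Here `m` is ANY integer,
for example a critical one.

Deligne's conjecture for `M` and a critical integer `m` says that there is an `e ∈ E` with `L_τ(m) = τ(e) c_τ`
for all `τ`, where `(c_τ)` is `(2πi)^{m n^ε} c^ε(M) ∈ E ⊗ ℂ`.  The left side is defined by analytic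
continuation.  We show that it is a limit of explicit sums over the primes: let `γ > π/2` be real and

`W_τ(X) = ∑_p ∑_{k ≥ 1} τ(tr F_p^k) / (k p^{km}) · e^{iγu} / Γ(1 + u)`,  `u = k log p / log X`.

(The weights tend to `1` for `X → ∞`; without them this would be `log` of the Euler product at `m`, in general
a divergent series.)  Then for all embeddings `τ`:

1. `W_τ(X)` converges absolutely for `X > 1`.
2. With `r` the order and `e^c` the leading coefficient of `L_τ` at `m`,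
   `W_τ(X) = c - r (log log X - Λ_γ) + O(1/log X)`, `Λ_γ = ∫_0^∞ (e^{-t} - e^{iγt}/Γ(1+t)) dt/t`.
3. For every complex number `B`: `L_τ(s) → B` for `s → m` if and only if `exp W_τ(X) → B` for `X → ∞`.  So if
   `L_τ` is holomorphic at `m`, then `L_τ(m) = lim exp W_τ(X)`, whether or not `L_τ(m) = 0`.
4. Deligne's conjecture for `M` and `m`, with arbitrary numbers `c_τ`: there is an `e ∈ E` with
   `L_τ(m) = τ(e) c_τ` for all `τ`, if and only if there is an `e ∈ E` with `exp W_τ(X) → τ(e) c_τ` for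
   `X → ∞` for all `τ`.

Nothing is assumed about the zeros of the functions `L_τ`, in particular not about real zeros in
`(m, w/2 + 1)`; this is the effect of the rotation `e^{iγu}` with `γ > π/2`.

Proof.  The law for rotated Mittag-Leffler sums of Dirichlet series with real coefficients and a central point
at distance `1/2` from the half plane of convergence is `Pool.Agent.V11290.UL` (`MP_dfae13_nt.NumericalForm`).
It is extended to complex coefficients and all real points in `Pool.Agent.V11288.LZ` (first used in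
`MP_46b841_nt.LeadingTermsByPrimes`, for Artin `L`-series at `0`).
-/

set_option autoImplicit false

namespace Pool.Agent.Results.MP_100fe7_nt.ValuesByPrimes

open Filter Topology Set

variable {E : Type} [Field E] [NumberField E] {d : ℕ}

/-- The eigenvalues of all `F_p` under all embeddings of `E` have absolute value at most `p^{w/2}`. -/
def WeightAtMost (w : ℤ) (F : Nat.Primes → Matrix (Fin d) (Fin d) E) : Prop :=
  ∀ (τ : E →+* ℂ) (p : Nat.Primes), ∀ z ∈ ((F p).map τ).charpoly.roots, ‖z‖ ≤ (p : ℝ) ^ ((w : ℝ) / 2)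

/-- `Λ` is the component `L_τ` of `L(s, M)`: the Euler product of `det(1 - p^{-s} τ(F_p))⁻¹` for
`Re s > w/2 + 1`, meromorphic at the points of the real interval `[m, w/2 + 1]`. -/
structure IsLFunction (w : ℤ) (F : Nat.Primes → Matrix (Fin d) (Fin d) E) (m : ℤ) (τ : E →+* ℂ)
    (Λ : ℂ → ℂ) : Prop where
  mero : ∀ x ∈ Icc (m : ℝ) ((w : ℝ) / 2 + 1), MeromorphicAt Λ (x : ℂ)
  prod : ∀ s : ℂ, (w : ℝ) / 2 + 1 < s.re →
    Λ s = ∏' p : Nat.Primes, ((1 - (p : ℂ) ^ (-s) • (F p).map τ).det)⁻¹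

/-- The weight `e^{iγu} / Γ(1 + u)`. -/
noncomputable def weight (γ u : ℝ) : ℂ :=
  Complex.exp ((γ * u : ℝ) * Complex.I) / (Real.Gamma (1 + u) : ℂ)

/-- The term of `W_τ(X)` at `(p, k)`: `τ(tr F_p^k)/(k p^{km})` times the weight at `u = k log p / log X`. -/
noncomputable def term (F : Nat.Primes → Matrix (Fin d) (Fin d) E) (m : ℤ) (τ : E →+* ℂ) (γ X : ℝ)
    (p : Nat.Primes) (k : ℕ) : ℂ :=
  τ (F p ^ k).trace / (k * (p : ℂ) ^ (k * m)) * weight γ (k * Real.log p / Real.log X)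

/-- `W_τ(X)`, the sum over the primes `p` and `k ≥ 1` (here `k = x.2 + 1`). -/
noncomputable def W (F : Nat.Primes → Matrix (Fin d) (Fin d) E) (m : ℤ) (τ : E →+* ℂ) (γ X : ℝ) : ℂ :=
  ∑' x : Nat.Primes × ℕ, term F m τ γ X x.1 (x.2 + 1)

/-- `Λ_γ = ∫_0^∞ (e^{-t} - e^{iγt} / Γ(1 + t)) dt / t`. -/
noncomputable def Lam (γ : ℝ) : ℂ := ∫ t in Ioi (0 : ℝ),
  (Complex.exp (-(t : ℂ)) - Complex.exp ((γ * t : ℝ) * Complex.I) * ((Real.Gamma (1 + t))⁻¹ : ℝ)) / t

/-- `B` is the value of `Λ` at `m`: `Λ(s) → B` for `s → m`, `s ≠ m`. -/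
def ValueAt (Λ : ℂ → ℂ) (m : ℤ) (B : ℂ) : Prop := Tendsto Λ (𝓝[≠] (m : ℂ)) (𝓝 B)

/-- `exp W_τ(X) → B` for `X → ∞`. -/
def PrimeLimit (F : Nat.Primes → Matrix (Fin d) (Fin d) E) (m : ℤ) (γ : ℝ) (τ : E →+* ℂ) (B : ℂ) : Prop :=
  Tendsto (fun X : ℝ => Complex.exp (W F m τ γ X)) atTop (𝓝 B)

open Pool.Agent.V11288.LZ

variable {w m : ℤ} {F : Nat.Primes → Matrix (Fin d) (Fin d) E} {γ : ℝ}

theorem eul (hF : WeightAtMost w F) (τ : E →+* ℂ) :
    Eul 1 ((w : ℝ) / 2) (fun p : Nat.Primes => (p : ℝ)) (fun p => (F p).map τ) :=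
  ⟨le_rfl, fun p => by exact_mod_cast p.2.two_le,
    fun _ hx => Nat.Primes.summable_rpow.2 (by linarith), hF τ⟩

theorem trace_map (τ : E →+* ℂ) (M : Matrix (Fin d) (Fin d) E) (k : ℕ) :
    (M.map τ ^ k).trace = τ (M ^ k).trace := by
  have h1 : M.map τ ^ k = (M ^ k).map τ := by
    rw [← RingHom.mapMatrix_apply, ← RingHom.mapMatrix_apply, map_pow]
  rw [h1]
  simp [Matrix.trace, map_sum]

theorem term_eq (τ : E →+* ℂ) (X : ℝ) (x : Nat.Primes × ℕ) :
    tm (fun p : Nat.Primes => (p : ℝ)) (fun p => (F p).map τ) m γ X x =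
      term F m τ γ X x.1 (x.2 + 1) := by
  unfold tm term weight wt
  rw [trace_map, Real.rpow_intCast]
  have h0 : ((((x.1 : ℕ) : ℝ) ^ m : ℝ) : ℂ) ^ (x.2 + 1) = ((x.1 : ℕ) : ℂ) ^ (((x.2 + 1 : ℕ) : ℤ) * m) := by
    push_cast
    rw [mul_comm, zpow_mul]
    norm_cast
  rw [h0]

theorem W_eq (τ : E →+* ℂ) (X : ℝ) :
    tot (fun p : Nat.Primes => (p : ℝ)) (fun p => (F p).map τ) m γ X = W F m τ γ X :=
  tsum_congr fun x => term_eq τ X x

/-- **Critical values as limits of sums over primes.** -/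
theorem result (w : ℤ) (F : Nat.Primes → Matrix (Fin d) (Fin d) E) (hF : WeightAtMost w F) (m : ℤ)
    (L : (E →+* ℂ) → ℂ → ℂ) (hL : ∀ τ, IsLFunction w F m τ (L τ)) (γ : ℝ) (hγ : Real.pi / 2 < γ) :
    (∀ (τ : E →+* ℂ) (X : ℝ), 1 < X →
      Summable fun x : Nat.Primes × ℕ => ‖term F m τ γ X x.1 (x.2 + 1)‖) ∧
    (∀ τ : E →+* ℂ, ∃ (r : ℤ) (c : ℂ), meromorphicOrderAt (L τ) (m : ℂ) = r ∧
      Tendsto (fun s : ℂ => L τ s / (s - m) ^ r) (𝓝[≠] (m : ℂ)) (𝓝 (Complex.exp c)) ∧
      (fun X : ℝ => W F m τ γ X - (c - r * (Real.log (Real.log X) - Lam γ))) =O[atTop]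
        (fun X : ℝ => 1 / Real.log X)) ∧
    (∀ (τ : E →+* ℂ) (B : ℂ), ValueAt (L τ) m B ↔ PrimeLimit F m γ τ B) ∧
    ∀ c : (E →+* ℂ) → ℂ,
      (∃ e : E, ∀ τ, ValueAt (L τ) m (τ e * c τ)) ↔ ∃ e : E, ∀ τ, PrimeLimit F m γ τ (τ e * c τ) := by
  have hcast : ((m : ℝ) : ℂ) = (m : ℂ) := by push_cast; rfl
  have key : ∀ τ : E →+* ℂ, _ := fun τ => (eul hF τ).final' (L := L τ) (m : ℝ)
    (fun x hx => (hL τ).mero x ⟨hx.1, by linarith [hx.2]⟩)
    (fun s hs => (hL τ).prod s (by linarith)) hγ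
  have hv : ∀ (τ : E →+* ℂ) (B : ℂ), ValueAt (L τ) m B ↔ PrimeLimit F m γ τ B := by
    intro τ B
    have h := (key τ).2.2.2 B
    rw [hcast] at h
    simp only [W_eq] at h
    exact h
  refine ⟨fun τ X hX => ?_, fun τ => ?_, hv, fun c => ?_⟩
  · refine ((key τ).1 X hX).congr fun x => ?_
    rw [term_eq]
  · obtain ⟨r, c, h1, h2, h3⟩ := (key τ).2.1
    rw [hcast] at h1 h2
    refine ⟨r, c, h1, h2, ?_⟩
    refine h3.congr_left fun X => ?_
    rw [W_eq]
    show _ = W F m τ γ X - (c - r * (Real.log (Real.log X) - Pool.Agent.W187.UR.Lam γ))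
    ring
  · simp only [hv]

end Pool.Agent.Results.MP_100fe7_nt.ValuesByPrimes
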